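import Pool.Agent.H29.SX.Targets

/-!
# Board `shx_modules`, row DPA: the determinant inequality for jets and values
-/

set_option autoImplicit false

namespace Pool.Agent.H94.SX

open NumberField Height Finset Polynomial Pool.Agent.H24.RD Pool.Agent.H23.RDD Pool.Agent.H29.RQ
open Pool.Agent.H29.SX

theorem pf_DPA (h1 : T_PAD) (h2 : T_DET) : T_DPA := by
  intro M _ _ p hp r t R a ν G haν hG nn γ0 U uA κA wB γB hU hwB hli hjet hv
  refine h2 M p hp a ν R (t * G)
    (fun i j => jc M (κA i) (nn j) * pt γ0 (uA i) (nn j))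
    (fun i j => pt (γB i) (wB i) (nn j)) haν (mul_nonneg (Nat.cast_nonneg t) hG) hli ?_
  intro v hvp x hx hxA i b hb
  obtain ⟨hγ0, hγB, hdch⟩ := hv v hvp
  have hna : IsNonarchimedean v.1 := fun x y => FinitePlace.add_le v x y
  have hp0 : (p : M) ≠ 0 := by exact_mod_cast hp.ne_zero
  have hvp0 : 0 < v.1 (p : M) := v.1.pos hp0
  have hRpos : 0 < R := by
    have := i.pos
    omega
  have hb0 : 0 ≤ b := le_trans (v.1.nonneg _) (hb ⟨0, hRpos⟩)
  have hval : ∀ j, v.1 (pt (γB i) (wB i) (nn j)) = v.1 (wB i) ^ (nn j 0) := by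
    intro j
    unfold pt
    rw [map_mul, map_zpow₀, map_prod]
    rw [Finset.prod_eq_one, mul_one]
    intro l _
    rw [map_zpow₀, (hγB i l).1, one_zpow]
  have h3 := h1 M v.1 hna r t R nn γ0 (γB i) (wB i) U (v.1 (p : M) ^ G)
    (Real.rpow_pos_of_pos hvp0 G) (Real.rpow_le_one hvp0.le hvp.le hG) hγ0
    (fun l => (hγB i l).1) (fun l => (hγB i l).2) (hwB i) hU (hdch i) x hx
    (hjet x hxA) b hb0 (fun j => by rw [← hval j]; exact hb j)
  have h4 : (v.1 (p : M) ^ G) ^ t = v.1 (p : M) ^ ((t : ℝ) * G) := by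
    rw [mul_comm, Real.rpow_mul hvp0.le, Real.rpow_natCast]
  rw [h4] at h3
  exact h3

end Pool.Agent.H94.SX
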